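import Pool.Agent.H.MP_757726_co.Per

set_option autoImplicit false

namespace Pool.Agent.Results.MP_757726_co.Periodic

def Anti {A : Type} (t : List A → List A) : Prop :=
  (∀ v w, t (v ++ w) = t w ++ t v) ∧ ∀ w, t (t w) = w

def IsClosure {A : Type} (t : List A → List A) (x y : List A) : Prop :=
  t y = y ∧ x <+: y ∧ ∀ z, t z = z → x <+: z → y.length ≤ z.length

def pre {A : Type} (u : ℕ → A) (m : ℕ) : List A := (List.range m).map u

theorem result (A : Type) [Finite A] (δ : ℕ → A) (θ : ℕ → List A → List A)
    (hθ : ∀ n, Anti (θ n)) (w : ℕ → List A) (w0 : w 0 = [])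
    (hw : ∀ n, IsClosure (θ (n + 1)) (w n ++ [δ (n + 1)]) (w (n + 1)))
    (u : ℕ → A) (hu : ∀ n, w n = pre u (w n).length)
    (hnorm : ∀ m t, Anti t → t (pre u m) = pre u m → ∃ n, w n = pre u m)
    (hd : Function.Surjective u) :
    (∃ s q, 0 < q ∧ ∀ x ≥ s, u (x + q) = u x) ↔
      ∃ N, (∀ i > N, ∀ j > N, θ i [δ (i + 1)] = θ j [δ (j + 1)]) ∧
        ∀ i > N, ∀ x, θ i x = x → θ (i + 2) (θ (i + 1) x) = θ (i + 1) x := by
  open Pool.Agent.H.MP_757726_co in
  choose f hf hfe using fun n => Pool.Agent.H.MP_757726_co.Anti.struct (hθ n)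
  have hm : StrictMono fun n => (w n).length := strictMono_nat_of_lt_succ fun n => by
    have := (hw n).2.1.length_le
    simp only [List.length_append, List.length_singleton] at this
    omega
  have hp : ∀ n, Pal u (f (n + 1)) (w (n + 1)).length := by
    intro n
    rw [← pal_iff, ← hfe]
    have := (hw n).1
    rw [hu (n + 1)] at this
    exact this
  constructor
  · rintro ⟨s, q, hq, h⟩
    have hδ : ∀ n, δ (n + 1) = u (w n).length := by
      intro n
      obtain ⟨r, hr⟩ := (hw n).2.1
      have h1 := congrArg (fun l => l[(w n).length]?) (hr.trans (hu (n + 1)))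
      have h2 : (w n).length < (w (n + 1)).length := hm (Nat.lt_succ_self n)
      simp only [pre, List.getElem?_map, List.getElem?_range h2] at h1
      simpa using h1
    obtain ⟨h1, π, h2⟩ := fwd u hd (fun n => f (n + 1)) (fun n => hf _) _ hm hp (by
      intro k g hg hk
      obtain ⟨n, hn⟩ := hnorm k (ref g) (anti_ref hg) ((pal_iff u g k).2 hk)
      exact ⟨n, by rw [hn]; simp [pre]⟩) s q hq h
    refine ⟨q, fun i hi j hj => ?_, fun i hi x hx => ?_⟩
    · obtain ⟨i, rfl⟩ : ∃ k, i = k + 1 := ⟨i - 1, by omega⟩
      obtain ⟨j, rfl⟩ : ∃ k, j = k + 1 := ⟨j - 1, by omega⟩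
      rw [hfe, hfe, hδ, hδ]
      simp only [ref, List.map_cons, List.map_nil]
      rw [h1 i (by omega), h1 j (by omega)]
    · obtain ⟨i, rfl⟩ : ∃ k, i = k + 1 := ⟨i - 1, by omega⟩
      conv_rhs => rw [← hx]
      simp only [hfe, ref, List.map_reverse, List.reverse_reverse, List.map_map]
      exact List.map_congr_left fun a _ =>
        (h2 (i + 1) (by omega) a).trans (h2 i (by omega) a).symm
  · rintro ⟨N, h1, h2⟩
    have h3 : ∀ i > N, ∀ a, f (i + 2) (f (i + 1) a) = f (i + 1) (f i a) := by
      intro i hi a
      have := h2 i hi [a, f i a] (by simp [hfe, ref, hf])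
      simp only [hfe, ref, List.map_reverse, List.reverse_reverse, List.map_cons,
        List.map_nil, List.reverse_cons, List.reverse_nil, List.nil_append, List.cons_append,
        List.cons.injEq] at this
      exact this.1
    obtain ⟨q, hq, h⟩ := bwd u (fun n => f (n + 1)) (fun n => hf _) _ hm hp N
      (fun i hi a => h3 (i + 1) (by omega) a) (by
        intro i hi
        obtain ⟨r, hr⟩ := (hw (i + 1)).2.1
        have e1 := (hw (i + 1)).1
        have e2 := h2 (i + 1) (by omega) _ (hw i).1
        have e3 := h1 (i + 1) (by omega) (i + 2) (by omega)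
        have e4 : f (i + 3) (δ (i + 3)) = f (i + 2) (δ (i + 2)) := by
          simp only [hfe, ref, List.map_cons, List.map_nil, List.reverse_cons, List.reverse_nil,
            List.nil_append, List.cons.injEq, and_true] at e3
          have e5 := h3 (i + 1) (by omega) (f (i + 2) (δ (i + 3)))
          rw [hf] at e5
          rw [e5, ← e3, hf]
        have e5 : θ (i + 3) [δ (i + 3)] = θ (i + 2) [δ (i + 2)] := by
          simp [hfe, ref, e4]
        have e6 : w (i + 2) = θ (i + 2) r ++ (θ (i + 2) [δ (i + 2)] ++ θ (i + 2) (w (i + 1))) := by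
          rw [← (hθ _).1, ← (hθ _).1, hr]; exact e1.symm
        set s := θ (i + 2) [δ (i + 2)] ++ θ (i + 2) (w (i + 1)) ++ [δ (i + 3)] with hs
        have e7 : θ (i + 3) s = s := by
          rw [hs, (hθ _).1, (hθ _).1, e2, ← e5, (hθ _).2, List.append_assoc]
        have e8 := (hw (i + 2)).2.2 (θ (i + 2) r ++ s ++ θ (i + 3) (θ (i + 2) r))
          (by
            change θ (i + 3) _ = _
            rw [(hθ _).1, (hθ _).1, (hθ _).2, e7]
            exact (List.append_assoc _ _ _).symm)
          ⟨θ (i + 3) (θ (i + 2) r), by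
            change w (i + 2) ++ [δ (i + 3)] ++ _ = _
            rw [hs]
            nth_rewrite 1 [e6]
            simp only [List.append_assoc]⟩
        have e9 := congrArg List.length hr
        simp only [hs, hfe, ref, List.length_append, List.length_reverse, List.length_map,
          List.length_singleton] at e8 e9
        change (w (i + 3)).length ≤ _ at e8
        change _ = (w (i + 2)).length at e9
        change (w (i + 3)).length + (w (i + 1)).length ≤ 2 * (w (i + 2)).length
        omega)
    exact ⟨0, q, hq, fun x _ => h x⟩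

end Pool.Agent.Results.MP_757726_co.Periodic
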